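import Pool.Agent.W707.HM.All

/-!
# Morrey's problem for isotropic homogeneous functions of real `2 × 2` matrices

Every rank-one convex function of a real `2 × 2` matrix which is invariant under left and right
rotations and positively homogeneous, of any degree, is quasiconvex.
-/

set_option autoImplicit false

namespace Pool.Agent.Results.MP_515557_an.HomogeneousIsotropic

/-- Let `p` be a real number and let `W` be a real-valued function of a real `2 × 2` matrix with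
`W (R A Q) = W A` for all rotations `R, Q` and `W (c A) = c ^ p W A` for all `c > 0`.  If `W` is
rank-one convex then `W` is quasiconvex. -/
theorem result (p : ℝ) (W : Matrix (Fin 2) (Fin 2) ℝ → ℝ)
    (hinv : ∀ R ∈ Matrix.specialOrthogonalGroup (Fin 2) ℝ,
      ∀ Q ∈ Matrix.specialOrthogonalGroup (Fin 2) ℝ, ∀ A, W (R * A * Q) = W A)
    (hhom : ∀ c : ℝ, 0 < c → ∀ A, W (c • A) = c ^ p * W A)
    (hroc : ∀ F H : Matrix (Fin 2) (Fin 2) ℝ, H.rank = 1 → ∀ t : ℝ, 0 ≤ t → t ≤ 1 →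
      W ((1 - t) • F + t • (F + H)) ≤ (1 - t) * W F + t * W (F + H)) :
    ∀ F₀ : Matrix (Fin 2) (Fin 2) ℝ, ∀ Ω : Set (Fin 2 → ℝ), IsOpen Ω → Bornology.IsBounded Ω →
      ∀ ϑ : (Fin 2 → ℝ) → (Fin 2 → ℝ), (∃ K, LipschitzWith K ϑ) → (∀ x, x ∉ Ω → ϑ x = 0) →
        W F₀ * (MeasureTheory.volume Ω).toReal ≤
          ∫ x in Ω, W (F₀ + LinearMap.toMatrix'
            ((fderiv ℝ ϑ x : (Fin 2 → ℝ) →L[ℝ] (Fin 2 → ℝ)) :
              (Fin 2 → ℝ) →ₗ[ℝ] (Fin 2 → ℝ))) :=
  Pool.Agent.W707.HM.hm_main p W hinv hhom hroc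

end Pool.Agent.Results.MP_515557_an.HomogeneousIsotropic
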