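import Pool.Agent.W779.Morrey.Invariant

set_option autoImplicit false

open MeasureTheory

namespace Pool.Agent.Results.MP_515557_an.IsotropicQuartic

/-- The function of a real `2 × 2` matrix given by a polynomial in its four entries. -/
noncomputable def poly (P : MvPolynomial (Fin 2 × Fin 2) ℝ) (F : Matrix (Fin 2) (Fin 2) ℝ) : ℝ :=
  MvPolynomial.eval (fun p => F p.1 p.2) P

/-- The rotation by the angle `t`. -/
noncomputable def R (t : ℝ) : Matrix (Fin 2) (Fin 2) ℝ :=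
  !![Real.cos t, -Real.sin t; Real.sin t, Real.cos t]

/-- Rank-one convexity implies quasiconvexity for every polynomial of degree at most four in the
entries of a real `2 × 2` matrix which is invariant under left and right rotations. -/
theorem result (P : MvPolynomial (Fin 2 × Fin 2) ℝ) (hdeg : P.totalDegree ≤ 4)
    (hinv : ∀ (s t : ℝ) (F : Matrix (Fin 2) (Fin 2) ℝ), poly P (R s * F * R t) = poly P F)
    (hroc : ∀ F H : Matrix (Fin 2) (Fin 2) ℝ, H.rank = 1 → ∀ t : ℝ, 0 ≤ t → t ≤ 1 →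
      poly P ((1 - t) • F + t • (F + H)) ≤ (1 - t) * poly P F + t * poly P (F + H)) :
    ∀ F₀ : Matrix (Fin 2) (Fin 2) ℝ, ∀ Ω : Set (Fin 2 → ℝ), IsOpen Ω → Bornology.IsBounded Ω →
      ∀ ϑ : (Fin 2 → ℝ) → (Fin 2 → ℝ), (∃ K, LipschitzWith K ϑ) → (∀ x, x ∉ Ω → ϑ x = 0) →
        poly P F₀ * (volume Ω).toReal ≤
          ∫ x in Ω, poly P (F₀ + LinearMap.toMatrix'
            ((fderiv ℝ ϑ x : (Fin 2 → ℝ) →L[ℝ] (Fin 2 → ℝ)) :
              (Fin 2 → ℝ) →ₗ[ℝ] (Fin 2 → ℝ))) := by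
  obtain ⟨c, hc⟩ := W779.Morrey.normal_form P hdeg hinv
  have hp : poly P = W779.Morrey.Iso c := hc
  rw [hp] at hroc ⊢
  obtain ⟨h1, h2, h3, h4⟩ := W779.Morrey.Iso_conditions c hroc
  have hq := W779.Morrey.QCtrig_Iso c h1 h2 h3 h4
  rintro F₀ Ω hΩ hb ϑ ⟨K, hK⟩ h0
  have hcont : Continuous (fun F : W779.Morrey.E => W779.Morrey.Iso c F) :=
    Helper188.Morrey.RankOneConvex.continuous hroc
  have h := W779.Morrey.qc_of_trig hcont hq F₀ hΩ hb hK h0
  refine h.trans (le_of_eq ?_)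
  refine integral_congr_ae (Filter.Eventually.of_forall fun x => ?_)
  simp only
  rw [W779.Morrey.gr_eq_grad]
  rfl

end Pool.Agent.Results.MP_515557_an.IsotropicQuartic
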