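import Pool.Agent.W360.MQ.Qkb

/-!
# Morrey's problem for the functions `W(A) = α(|A|) + β(|A|) det A` on real `2 × 2` matrices

`|A|` is the operator norm (the largest singular value) and `α, β : ℝ → ℝ` are arbitrary.  Every
rank-one convex function of this form is quasiconvex.  The class contains the Burkholder
functions `B_p` and Sverak's function.
-/

set_option autoImplicit false

namespace Pool.Agent.Results.MP_515557_an.NormDetClass

open scoped Matrix.Norms.L2Operator in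
/-- Let `W(A) = α(‖A‖) + β(‖A‖) det A` for all real `2 × 2` matrices `A`, where `‖A‖` is the
operator norm of `A` on the Euclidean plane and `α, β` are arbitrary.  If `W` is rank-one convex
then `W` is quasiconvex. -/
theorem result :
    ∀ (α β : ℝ → ℝ) (W : Matrix (Fin 2) (Fin 2) ℝ → ℝ),
      (∀ A : Matrix (Fin 2) (Fin 2) ℝ, W A = α ‖A‖ + β ‖A‖ * A.det) →
      (∀ F H : Matrix (Fin 2) (Fin 2) ℝ, H.rank = 1 →
        ∀ t : ℝ, 0 ≤ t → t ≤ 1 →
          W ((1 - t) • F + t • (F + H)) ≤ (1 - t) * W F + t * W (F + H)) →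
      ∀ F₀ : Matrix (Fin 2) (Fin 2) ℝ, ∀ Ω : Set (Fin 2 → ℝ),
        IsOpen Ω → Bornology.IsBounded Ω →
        ∀ ϑ : (Fin 2 → ℝ) → (Fin 2 → ℝ), (∃ K, LipschitzWith K ϑ) →
          (∀ x, x ∉ Ω → ϑ x = 0) →
          W F₀ * (MeasureTheory.volume Ω).toReal ≤
            ∫ x in Ω, W (F₀ + LinearMap.toMatrix'
              ((fderiv ℝ ϑ x : (Fin 2 → ℝ) →L[ℝ] (Fin 2 → ℝ)) :
                (Fin 2 → ℝ) →ₗ[ℝ] (Fin 2 → ℝ))) :=
  fun α β W hW hR => Pool.Agent.W360.MQ.Fin.mq α β W hW hR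

end Pool.Agent.Results.MP_515557_an.NormDetClass
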